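import Pool.Agent.helper20.FX.Spec

set_option autoImplicit false

namespace Pool.Agent.FXM

open Finset

theorem LI (hLGI : LGI_stmt) (hLGC : LGC_stmt) : LI_stmt := by
  classical
  intro a d U hU hab
  have h1 := hLGC a d U hab
  choose A hA hAb using h1
  refine ⟨fun n => if h : n ∈ U then A n h else 0, ?_, ?_⟩
  · intro n hn
    beta_reduce
    rw [dif_pos hn]
    exact hAb n hn
  · intro k
    have h2 := hLGI U (k : ℚ) hU
    have h3 : ∀ n ∈ U, ((((if h : n ∈ U then A n h else 0) *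
        ∏ j ∈ U.erase n, (k * 2 ^ j + 1) : ℤ)) : ℚ) =
        (Pr d : ℚ) * ∏ j ∈ U.erase n, (((k : ℚ) * 2 ^ j + 1) / (1 - (2 : ℚ) ^ j / 2 ^ n)) := by
      intro n hn
      rw [dif_pos hn, Finset.prod_div_distrib, ← hA n hn]
      have hw : ∏ j ∈ U.erase n, (1 - (2 : ℚ) ^ j / 2 ^ n) ≠ 0 := by
        rw [Finset.prod_ne_zero_iff]
        intro j hj h0
        have hjn : j ≠ n := (Finset.mem_erase.mp hj).1
        have h4 : (2 : ℚ) ^ j = 2 ^ n := by
          have h5 : (2 : ℚ) ^ j / 2 ^ n = 1 := by linarith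
          rwa [div_eq_one_iff_eq (by positivity)] at h5
        exact hjn (pow_right_injective₀ (by norm_num) (by norm_num) h4)
      push_cast
      generalize (∏ j ∈ U.erase n, (1 - (2 : ℚ) ^ j / 2 ^ n)) = w at hw ⊢
      generalize (∏ j ∈ U.erase n, ((k : ℚ) * 2 ^ j + 1)) = z
      rw [mul_assoc, mul_div_cancel₀ z hw]
    have h6 : ((∑ n ∈ U, (if h : n ∈ U then A n h else 0) *
        ∏ j ∈ U.erase n, (k * 2 ^ j + 1) : ℤ) : ℚ) = ((Pr d : ℤ) : ℚ) := by
      rw [Int.cast_sum, Finset.sum_congr rfl h3, ← Finset.mul_sum, h2, mul_one]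
      norm_cast
    exact_mod_cast h6

end Pool.Agent.FXM
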